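import Pool.Agent.H66.GEO.STR2

/-!
# THEOREM GEO*, any number of Julia critical points (MP_8f2e1c_an, think 1880, sections 4-7): definitions

`Mk Lf y`: `y` is a marked point (the property `typ` of `LS` at `y`; `LS.typ` = `Mk Lf 0`). `XT`: THE INTERFACE (data of the chapter X): the symmetric domain `φ0 '' ball 0 1` and the domains `θ k '' ball 0 1`
with the maps `F k` of degree `2 ^ u k` onto the first one. `XU`: the same, indexed by the levels `s ∈ U` (internal). `W1`: one domain with its strip map. `PT`: all strip maps,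
`ψ s = φ s ∘ x s`, `x s` = the strip maps of the disc. `GT`: the lifts.
-/

set_option autoImplicit false

open Filter Topology Metric Set

namespace Pool.Agent.H91.GS

open Pool.Agent.H66.GEO

/-- marked points -/
def Mk (Lf : Set ℂ → (ℂ → ℂ) → (ℂ → ℂ) → Prop) (y : ℂ) : Prop :=
  ∀ (φ G : ℂ → ℂ) (d : ℝ), 0 < d → d < 1 → DifferentiableOn ℂ φ (ball 0 1) → InjOn φ (ball 0 1) →
    Bornology.IsBounded (φ '' ball 0 1) → y ∈ φ '' ball 0 1 →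
    Lf (St (Real.log (1 - d)) 0) (fun t => φ (Complex.exp t)) G →
    ¬ ∀ t ∈ St (Real.log (1 - d)) 0, G (t + 4 * Real.pi * Complex.I) = G t

/-- THE INTERFACE: the domains `X_0 = φ0 '' ball 0 1` (odd, bounded) and `T_k = θ k '' ball 0 1` -/
structure XT (Q : Set ℂ) (Lf : Set ℂ → (ℂ → ℂ) → (ℂ → ℂ) → Prop) (th r : ℝ) (φ0 : ℂ → ℂ) (u : ℕ → ℕ) (θ F : ℕ → ℂ → ℂ)
    (ω α : ℕ → ℂ) : Prop where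
  th0 : 0 < th
  thr : th < r
  r1 : r < 1
  ut : Tendsto u atTop atTop
  dφ : DifferentiableOn ℂ φ0 (ball 0 1)
  iφ : InjOn φ0 (ball 0 1)
  oφ : ∀ x ∈ ball (0 : ℂ) 1, φ0 (-x) = - φ0 x
  bφ : Bornology.IsBounded (φ0 '' ball 0 1)
  dθ : ∀ k, DifferentiableOn ℂ (θ k) (ball 0 1)
  iθ : ∀ k, InjOn (θ k) (ball 0 1)
  hω : ∀ m, ‖ω m‖ = 1
  hα : ∀ m, ‖α m‖ < 1
  cv : ∀ m, ‖BB ω α m (ω m * α m)‖ ≤ th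
  rel : ∀ k, ∀ x ∈ ball (0 : ℂ) 1, F k (θ k x) = φ0 (BB ω α (u k) x)
  of0 : ∀ x ∈ ball (0 : ℂ) 1, th < ‖x‖ → φ0 x ∉ Q
  off : ∀ k, ∀ x ∈ ball (0 : ℂ) 1, th < ‖BB ω α (u k) x‖ → θ k x ∉ Q
  pb : ∀ (k : ℕ) {S : Set ℂ} {H G' G : ℂ → ℂ}, Lf S H G' → (∀ v ∈ S, H v ∈ θ k '' ball 0 1) →
    Lf S (fun v => F k (H v)) G → ∃ (a : ℝ) (b : ℂ), a ≠ 0 ∧ ∀ v ∈ S, G v = a * G' v + b
  cr : ∀ k : ℕ, ∃ x y : ℂ, ‖x‖ = r ∧ ‖y‖ < 1 ∧ ‖BB ω α (u k) y‖ = r ∧ θ k y = φ0 x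
  ex : ∃ (S : Set ℂ) (H G : ℂ → ℂ) (v x : ℂ), Lf S H G ∧ v ∈ S ∧ ‖x‖ < 1 ∧ th < ‖x‖ ∧ H v = φ0 x
  mq : ∀ k : ℕ, ∃ y ∈ ball (0 : ℂ) 1, ‖BB ω α (u k) y‖ < r ∧ θ k y ∈ Q ∧ Mk Lf (θ k y)

/-- the domains indexed by the levels `s ∈ U` (`φ 0` = the symmetric one, `F s : X_s → X_0`) -/
structure XU (Q : Set ℂ) (Lf : Set ℂ → (ℂ → ℂ) → (ℂ → ℂ) → Prop) (th r : ℝ) (U : Set ℕ) (φ F : ℕ → ℂ → ℂ) (ω α : ℕ → ℂ) :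
    Prop where
  th0 : 0 < th
  thr : th < r
  r1 : r < 1
  U0 : 0 ∈ U
  Ui : U.Infinite
  dφ : ∀ s ∈ U, DifferentiableOn ℂ (φ s) (ball 0 1)
  iφ : ∀ s ∈ U, InjOn (φ s) (ball 0 1)
  oφ : ∀ x ∈ ball (0 : ℂ) 1, φ 0 (-x) = - φ 0 x
  bφ : Bornology.IsBounded (φ 0 '' ball 0 1)
  hω : ∀ m, ‖ω m‖ = 1
  hα : ∀ m, ‖α m‖ < 1
  cv : ∀ m, ‖BB ω α m (ω m * α m)‖ ≤ th
  rel : ∀ s ∈ U, ∀ x ∈ ball (0 : ℂ) 1, F s (φ s x) = φ 0 (BB ω α s x)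
  off : ∀ s ∈ U, ∀ x ∈ ball (0 : ℂ) 1, th < ‖BB ω α s x‖ → φ s x ∉ Q
  pb : ∀ s ∈ U, ∀ {S : Set ℂ} {H G' G : ℂ → ℂ}, Lf S H G' → (∀ v ∈ S, H v ∈ φ s '' ball 0 1) →
    Lf S (fun v => F s (H v)) G → ∃ (a : ℝ) (b : ℂ), a ≠ 0 ∧ ∀ v ∈ S, G v = a * G' v + b
  cr : ∀ s ∈ U, ∃ x y : ℂ, ‖x‖ = r ∧ ‖y‖ < 1 ∧ ‖BB ω α s y‖ = r ∧ φ s y = φ 0 x
  ex : ∃ (S : Set ℂ) (H G : ℂ → ℂ) (v x : ℂ), Lf S H G ∧ v ∈ S ∧ ‖x‖ < 1 ∧ th < ‖x‖ ∧ H v = φ 0 x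
  mq : ∀ s ∈ U, ∃ y ∈ ball (0 : ℂ) 1, ‖BB ω α s y‖ < r ∧ φ s y ∈ Q ∧ Mk Lf (φ s y)

/-- one domain of level `s` with its strip map -/
structure W1 (Q : Set ℂ) (th r : ℝ) (ω α : ℕ → ℂ) (s : ℕ) (φ ψ : ℂ → ℂ) : Prop where
  th0 : 0 < th
  thr : th < r
  r1 : r < 1
  hω : ∀ m, ‖ω m‖ = 1
  hα : ∀ m, ‖α m‖ < 1
  dφ : DifferentiableOn ℂ φ (ball 0 1)
  iφ : InjOn φ (ball 0 1)
  off : ∀ x ∈ ball (0 : ℂ) 1, th < ‖BB ω α s x‖ → φ x ∉ Q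
  dif : DifferentiableOn ℂ ψ (Ss th s)
  der : ∀ t ∈ Ss th s, deriv ψ t ≠ 0
  lev : ∀ t ∈ Ss th s, ∃ x ∈ ball (0 : ℂ) 1, BB ω α s x = Complex.exp (2 ^ s * t) ∧ ψ t = φ x
  sur : ∀ x ∈ ball (0 : ℂ) 1, th < ‖BB ω α s x‖ → ∃ t ∈ Ss th s, ψ t = φ x
  inj : ∀ t ∈ Ss th s, ∀ t' ∈ Ss th s, ψ t = ψ t' → ∃ k : ℤ, t' = t + 2 * Real.pi * Complex.I * k
  per : ∀ t ∈ Ss th s, ψ (t + 2 * Real.pi * Complex.I) = ψ t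
  nQ : ∀ t ∈ Ss th s, ψ t ∉ Q

/-- the strip maps `ψ s = φ s ∘ x s` -/
structure PT (Q : Set ℂ) (th r : ℝ) (U : Set ℕ) (φ F : ℕ → ℂ → ℂ) (ω α : ℕ → ℂ) (x ψ : ℕ → ℂ → ℂ) : Prop where
  w : ∀ s ∈ U, W1 Q th r ω α s (φ s) (ψ s)
  xx : ∀ s, XX th ω α s (x s)
  x0 : ∀ t, x 0 t = Complex.exp t
  xs : ∀ s, ∀ t ∈ Ss th (s + 1), Bl (ω s) (α s) (x (s + 1) t) = x s (2 * t)
  eq : ∀ s, ∀ t, ψ s t = φ s (x s t)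
  zer : ∀ t : ℂ, ψ 0 t = φ 0 (Complex.exp t)
  stp : ∀ s ∈ U, ∀ t ∈ Ss th s, F s (ψ s t) = ψ 0 (2 ^ s * t)
  hlf : ∀ t ∈ Ss th 0, ψ 0 (t + Real.pi * Complex.I) = - ψ 0 t

/-- lifts of the strip maps -/
structure GT (Lf : Set ℂ → (ℂ → ℂ) → (ℂ → ℂ) → Prop) (th r : ℝ) (U : Set ℕ) (ψ G : ℕ → ℂ → ℂ) : Prop where
  lf : ∀ s ∈ U, Lf (Ss th s) (ψ s) (G s)
  lk : ∀ s ∈ U, ∃ t ∈ Ss th 0, ∃ t' ∈ Ss th s, t.re = Real.log r ∧ t'.re = Real.log r / 2 ^ s ∧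
    ψ 0 t = ψ s t' ∧ G 0 t = G s t'
  ab : ∀ s ∈ U, ∃ (a : ℝ) (b : ℂ), a ≠ 0 ∧ ∀ t ∈ Ss th s, G 0 (2 ^ s * t) = a * G s t + b

end Pool.Agent.H91.GS
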