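import Pool.Agent.H91.GS.Defs
import Pool.Agent.H66.GEO.STR3

/-!
# GEO*, module PS: the strip maps exist
-/

set_option autoImplicit false

open Filter Topology Metric Set

namespace Pool.Agent.H91.GS

open Pool.Agent.H66.GEO

variable {Q : Set ℂ} {Lf : Set ℂ → (ℂ → ℂ) → (ℂ → ℂ) → Prop} {th r : ℝ} {U : Set ℕ} {φ F : ℕ → ℂ → ℂ} {ω α : ℕ → ℂ}

theorem inj_der {f : ℂ → ℂ} (hd : DifferentiableOn ℂ f (ball 0 1)) (hi : InjOn f (ball 0 1)) {y : ℂ} (hy : y ∈ ball (0 : ℂ) 1) :
    deriv f y ≠ 0 := by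
  have hy' : ‖y‖ < 1 := by simpa using hy
  have hR : 0 < 1 - ‖y‖ := by linarith
  have hsub : ball y (1 - ‖y‖) ⊆ ball (0 : ℂ) 1 := by
    apply ball_subset_ball'
    rw [dist_zero_right]
    linarith
  have h := Pool.Agent.H80.AJ.deriv_ne hR (hd.mono hsub) (hi.mono hsub)
    (mem_closedBall_self (by linarith) : y ∈ closedBall y ((1 - ‖y‖) / 2))
  exact norm_pos_iff.mp h

theorem pt_ex (hX : XU Q Lf th r U φ F ω α) : ∃ x ψ : ℕ → ℂ → ℂ, PT Q th r U φ F ω α x ψ := by
  obtain ⟨x, hx0, hx, hxs⟩ := xx_all hX.th0 (hX.thr.trans hX.r1) hX.hω hX.hα hX.cv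
  have hmb : ∀ s, ∀ t ∈ Ss th s, x s t ∈ ball (0 : ℂ) 1 := by
    intro s t ht
    simpa using (hx s).bal t ht
  have hxp : ∀ s, ∀ t ∈ Ss th s, x s (t + 2 * Real.pi * Complex.I) = x s t := by
    intro s t ht
    have h1 : t + 2 * Real.pi * Complex.I = (t + Real.pi * Complex.I) + Real.pi * Complex.I := by ring
    rw [h1, (hx s).per _ (st_pi.2 ht), (hx s).per _ ht, neg_neg]
  have hz : ∀ t : ℂ, φ 0 (x 0 t) = φ 0 (Complex.exp t) := fun t => by rw [hx0]
  refine ⟨x, fun s t => φ s (x s t), ?_, hx, fun t => by rw [hx0], hxs, fun s t => rfl, hz, ?_, ?_⟩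
  · intro s hs
    refine
      { th0 := hX.th0
        thr := hX.thr
        r1 := hX.r1
        hω := hX.hω
        hα := hX.hα
        dφ := hX.dφ s hs
        iφ := hX.iφ s hs
        off := hX.off s hs
        dif := (hX.dφ s hs).comp (hx s).dif (fun t ht => hmb s t ht)
        der := ?_
        lev := fun t ht => ⟨x s t, hmb s t ht, (hx s).lev t ht, rfl⟩
        sur := ?_
        inj := fun t ht t' ht' he => (hx s).inj t ht t' ht' (hX.iφ s hs (hmb s t ht) (hmb s t' ht') he)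
        per := fun t ht => by
          show φ s (x s (t + 2 * Real.pi * Complex.I)) = φ s (x s t)
          rw [hxp s t ht]
        nQ := fun t ht => hX.off s hs _ (hmb s t ht) (by
          rw [(hx s).lev t ht]
          exact ((ss_norm hX.th0).1 ht).1) }
    · intro t ht
      have d1 : HasDerivAt (x s) (deriv (x s) t) t :=
        ((hx s).dif.differentiableAt ((st_open _ _).mem_nhds ht)).hasDerivAt
      have d2 : HasDerivAt (φ s) (deriv (φ s) (x s t)) (x s t) :=
        ((hX.dφ s hs).differentiableAt (isOpen_ball.mem_nhds (hmb s t ht))).hasDerivAt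
      have d3 : HasDerivAt (fun t => φ s (x s t)) (deriv (φ s) (x s t) * deriv (x s) t) t := HasDerivAt.comp t d2 d1
      rw [d3.deriv]
      exact mul_ne_zero (inj_der (hX.dφ s hs) (hX.iφ s hs) (hmb s t ht)) ((hx s).der t ht)
    · intro y hy h1
      obtain ⟨t, ht, he⟩ := (hx s).sur y (by simpa using hy) h1
      exact ⟨t, ht, by show φ s (x s t) = _; rw [he]⟩
  · intro s hs t ht
    show F s (φ s (x s t)) = φ 0 (x 0 (2 ^ s * t))
    rw [hX.rel s hs _ (hmb s t ht), (hx s).lev t ht, hx0]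
  · intro t ht
    show φ 0 (x 0 (t + Real.pi * Complex.I)) = - φ 0 (x 0 t)
    rw [(hx 0).per t ht, hX.oφ _ (hmb 0 t ht)]

end Pool.Agent.H91.GS
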