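import Pool.Agent.H91.GS.Mn1
import Pool.Agent.H91.GS.PS
import Pool.Agent.H91.GS.ONE

/-!
# THEOREM GEO*, any number of Julia critical points (MP_8f2e1c_an, think 1880, sections 4-6)

`LS Q Lf`: the lift system (with `0` marked), `XT`: the symmetric domain `X_0` and the domains `T_k` of degree `2 ^ u k` over `X_0`, `u k → ∞`, crossing `X_0`, each with a marked point. Then all the critical
values `α m` of the sequence of maps of degree two are `0`.
-/

set_option autoImplicit false

open Filter Topology Metric Set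

namespace Pool.Agent.H91.GS

open Pool.Agent.H66.GEO

variable {Q : Set ℂ} {Lf : Set ℂ → (ℂ → ℂ) → (ℂ → ℂ) → Prop} {th r : ℝ} {ω α : ℕ → ℂ}

theorem geo_u {U : Set ℕ} {φ F : ℕ → ℂ → ℂ} (h : LS Q Lf) (hX : XU Q Lf th r U φ F ω α) : ∀ m, α m = 0 := by
  obtain ⟨x, ψ, hP⟩ := pt_ex hX
  obtain ⟨G, hG⟩ := gt_ex h hX hP
  obtain ⟨Lf', G', h', hX', hG', p0⟩ := nrm h hX hP hG
  obtain ⟨e, J, b, g, ρ, I, hJ, D⟩ := md_ex h' hX' hP hG' p0
  obtain ⟨s0, hs0⟩ := md_on h' hX' hP hG' p0 hJ D
  refine geo_of_claim h' hX' hP hG' p0 hJ D ⟨s0, fun s hs hss => one (hP.w s (hJ hs)) ?_ (hs0 s hs hss)⟩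
  obtain ⟨y, h1, h2, h3, h4⟩ := hX'.mq s (hJ hs)
  exact ⟨φ s y, ⟨y, ⟨by simpa using h1, h2⟩, rfl⟩, h3, mk_sc h4⟩

/-- **THEOREM GEO*** -/
theorem geo {φ0 : ℂ → ℂ} {u : ℕ → ℕ} {θ F : ℕ → ℂ → ℂ} (h : LS Q Lf) (hX : XT Q Lf th r φ0 u θ F ω α) : ∀ m, α m = 0 := by
  classical
  have hr : 0 < r := hX.th0.trans hX.thr
  have hk : ∀ s : ℕ, ∃ k : ℕ, s ∈ Set.range u → u k = s := by
    intro s
    by_cases h1 : s ∈ Set.range u
    · obtain ⟨k, hk⟩ := h1
      exact ⟨k, fun _ => hk⟩
    · exact ⟨0, fun h2 => absurd h2 h1⟩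
  choose k hk using hk
  have hU : ∀ s ∈ insert 0 (Set.range u), s ≠ 0 → u (k s) = s := by
    rintro s (rfl | hs) h0
    · exact absurd rfl h0
    · exact hk s hs
  refine geo_u (th := th) (r := r) (ω := ω) (U := insert 0 (Set.range u)) (φ := fun s => if s = 0 then φ0 else θ (k s))
    (F := fun s => if s = 0 then id else F (k s)) h ?_
  have h00 : φ0 0 = 0 := by
    have h1 := hX.oφ 0 (mem_ball_self one_pos)
    rw [neg_zero] at h1
    have h2 : (2 : ℂ) * φ0 0 = 0 := by linear_combination h1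
    simpa using h2
  refine
    { th0 := hX.th0
      thr := hX.thr
      r1 := hX.r1
      U0 := mem_insert _ _
      Ui := ?_
      dφ := ?_
      iφ := ?_
      oφ := ?_
      bφ := ?_
      hω := hX.hω
      hα := hX.hα
      cv := hX.cv
      rel := ?_
      off := ?_
      pb := ?_
      cr := ?_
      ex := ?_
      mq := ?_ }
  · have h1 : (Set.range u).Infinite := by
      intro hfin
      obtain ⟨N, hN⟩ := hfin.bddAbove
      obtain ⟨n, hn⟩ := (hX.ut.eventually_ge_atTop (N + 1)).exists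
      have := hN (Set.mem_range_self n)
      omega
    exact h1.mono (subset_insert _ _)
  · intro s hs
    by_cases h0 : s = 0
    · simp only [h0, if_true]
      exact hX.dφ
    · simp only [h0, if_false]
      exact hX.dθ _
  · intro s hs
    by_cases h0 : s = 0
    · simp only [h0, if_true]
      exact hX.iφ
    · simp only [h0, if_false]
      exact hX.iθ _
  · simpa using hX.oφ
  · simpa using hX.bφ
  · intro s hs y hy
    by_cases h0 : s = 0
    · simp only [h0, if_true]
      rfl
    · simp only [h0, if_false, if_true]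
      rw [hX.rel _ y hy, hU s hs h0]
  · intro s hs y hy hn
    by_cases h0 : s = 0
    · subst h0
      simp only [if_true]
      exact hX.of0 y hy hn
    · simp only [h0, if_false]
      exact hX.off _ y hy (by rwa [hU s hs h0])
  · intro s hs S H G' G h1 h2 h3
    by_cases h0 : s = 0
    · subst h0
      simp only [if_true] at h3
      exact h.gal h1 h3
    · simp only [h0, if_false] at h2 h3
      exact hX.pb (k s) h1 h2 h3
  · intro s hs
    by_cases h0 : s = 0
    · subst h0
      refine ⟨r, r, ?_, ?_, ?_, rfl⟩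
      · rw [Complex.norm_real, Real.norm_of_nonneg hr.le]
      · rw [Complex.norm_real, Real.norm_of_nonneg hr.le]
        exact hX.r1
      · show ‖(r : ℂ)‖ = r
        rw [Complex.norm_real, Real.norm_of_nonneg hr.le]
    · obtain ⟨x, y, h1, h2, h3, h4⟩ := hX.cr (k s)
      rw [hU s hs h0] at h3
      exact ⟨x, y, h1, h2, h3, by simp only [h0, if_false, if_true]; exact h4⟩
  · simpa using hX.ex
  · intro s hs
    by_cases h0 : s = 0
    · subst h0
      refine ⟨0, mem_ball_self one_pos, ?_, ?_, ?_⟩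
      · show ‖(0 : ℂ)‖ < r
        rw [norm_zero]
        exact hr
      · simp only [if_true]
        rw [h00]
        exact h.Q0
      · simp only [if_true]
        rw [h00]
        intro φ G d h1 h2 h3 h4 h5 h6 h7
        exact h.typ φ G d h1 h2 h3 h4 h5 h6 h7
    · obtain ⟨y, h1, h2, h3, h4⟩ := hX.mq (k s)
      rw [hU s hs h0] at h2
      exact ⟨y, h1, h2, by simpa only [h0, if_false] using h3, by simpa only [h0, if_false] using h4⟩

end Pool.Agent.H91.GS
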