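import Pool.Agent.H91.GS.Defs
import Pool.Agent.H98.GS.End

/-!
# GEO*, module END: section 6 (owner helper98); the proof is in H98/GS/End (`geo_end_star`)
-/

set_option autoImplicit false

open Filter Topology Metric Set

namespace Pool.Agent.H91.GS

open Pool.Agent.H66.GEO

theorem geo_end {Q : Set ℂ} {Lf : Set ℂ → (ℂ → ℂ) → (ℂ → ℂ) → Prop} {th r : ℝ} {U : Set ℕ} {φ F x ψ G : ℕ → ℂ → ℂ} {ω α : ℕ → ℂ}
    (hX : XU Q Lf th r U φ F ω α) (hP : PT Q th r U φ F ω α x ψ)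
    (hG : DifferentiableOn ℂ (G 0) (Ss th 0)) (hG' : ∀ t ∈ Ss th 0, deriv (G 0) t ≠ 0)
    (p0 : ∀ t ∈ Ss th 0, G 0 (t + Real.pi * Complex.I) = G 0 t + 1 / 2)
    (J : Set ℕ) (hJ : J.Infinite) (hJU : J ⊆ U) (e : ℝ) (b : ℕ → ℂ)
    (hb : ∀ s ∈ J, ∀ t ∈ Ss th s, G 0 (2 ^ s * t) = e * 2 ^ s * G s t + b s)
    (gp : ℂ) (ρ : ℝ) (hρ : 0 < ρ) (W : ℂ → ℂ) (dW : DifferentiableOn ℂ W (ball gp (2 * ρ)))
    (hW : ∀ s ∈ J, ∀ t ∈ Ss th s, e * G s t ∈ ball gp (2 * ρ) → W (e * G s t) = ψ s t)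
    (hp : ∀ ε : ℝ, 0 < ε → ∃ s0, ∀ s ∈ J, s0 ≤ s → ∃ t : ℂ, t.re = Real.log r / 2 ^ s ∧ ‖e * G s t - gp‖ < ε)
    (cl : ∃ s0, ∀ s ∈ J, s0 ≤ s → ∀ x ∈ ball gp (2 * ρ),
      (∀ t : ℂ, t.re = Real.log r / 2 ^ s → (e * G s t).im < x.im) → W x ∈ φ s '' ball 0 1) : ∀ m, α m = 0 :=
  geo_end_star hX.th0 hX.thr hX.r1 hX.hω hX.hα hP.xx hP.xs hJ (fun s hs => hX.dφ s (hJU hs)) (fun s hs => hX.iφ s (hJU hs))
    (u := fun s => s) tendsto_id hG hG' p0 (K := fun s t => e * G s t) (b := b)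
    (fun s hs t ht => by rw [hb s hs t ht]; ring) hρ dW (fun s hs t ht h => by rw [hW s hs t ht h, hP.eq]) hp cl

end Pool.Agent.H91.GS
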