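import Pool.Agent.H91.GS.Defs
import Pool.Agent.H66.GEO.EX4
import Pool.Agent.H24.GEO.Ex4m

/-!
# GEO*, module EX4: the collar of `W` and its lift (owner helper24). Copies of H66/GEO/EX4 and H24/GEO/Ex4 with a marked point `y ∈ W` in place of `0`
-/

set_option autoImplicit false

open Filter Topology Metric Set

namespace Pool.Agent.H91.GS

open Pool.Agent.H66.GEO

/-- the window `W` around `y` (result of module TP) -/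
structure WX (Q : Set ℂ) (κ l : ℝ) (ψ : ℂ → ℂ) (Y A W : Set ℂ) (φW : ℂ → ℂ) (d : ℝ) (t1 : ℂ) (ε : ℝ) (y : ℂ) : Prop where
  d0 : 0 < d
  d1 : d < 1
  dif : DifferentiableOn ℂ φW (ball 0 1)
  inj : InjOn φW (ball 0 1)
  im : φW '' ball 0 1 = W
  zer : y ∈ W
  bdd : Bornology.IsBounded W
  sub : W ⊆ Y \ A
  off : ∀ x ∈ ball (0 : ℂ) 1, 1 - d < ‖x‖ → φW x ∉ Q
  tl : t1.re = l
  ε0 : 0 < ε
  bl : ball t1 ε ⊆ St κ 0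
  inn : ∀ t ∈ ball t1 ε, t.re < l → ψ t ∈ W

theorem WX.old {Q : Set ℂ} {κ l : ℝ} {ψ : ℂ → ℂ} {Y A W : Set ℂ} {φW : ℂ → ℂ} {d : ℝ} {t1 : ℂ} {ε : ℝ} {y : ℂ}
    (h : WX Q κ l ψ Y A W φW d t1 ε y) : Pool.Agent.H66.GEO.WX Q κ l ψ Y A W φW d t1 ε where
  d0 := h.d0
  d1 := h.d1
  dif := h.dif
  inj := h.inj
  im := h.im
  bdd := h.bdd
  sub := h.sub
  off := h.off
  tl := h.tl
  ε0 := h.ε0
  bl := h.bl
  inn := h.inn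

variable {Q : Set ℂ} {Lf : Set ℂ → (ℂ → ℂ) → (ℂ → ℂ) → Prop} {κ l : ℝ} {ψ K : ℂ → ℂ} {Y : Set ℂ} {g : ℂ} {ρ : ℝ} {I : ℂ → ℂ}

theorem ex4a (h : ON Q Lf κ l ψ K Y g ρ I) {tb t' x' : ℂ} (hx : XI l ψ K Y g ρ I tb t' x') {γ : ℝ × ℂ}
    (hγ : EG Lf κ l ψ K t' x' γ) (hm : γ.1 = -1) {W : Set ℂ} {φW : ℂ → ℂ} {d : ℝ} {t1 : ℂ} {ε : ℝ} {y : ℂ}
    (hW : WX Q κ l ψ Y (I '' segment ℝ (K tb) x') W φW d t1 ε y) :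
    ∃ G' : ℂ → ℂ, Lf (St (Real.log (1 - d)) 0) (fun t => φW (Complex.exp t)) G' ∧
      LO Lf (St (Real.log (1 - d)) 0) (fun t => φW (Complex.exp t)) G' = LO Lf (St κ 0) ψ K ∧
      ∀ u ∈ St (Real.log (1 - d)) 0, nu K l (G' u) = 1 ∧ nu K l (γ.2 - G' u) = 1 ∧
        (∀ t : ℂ, t.re = l → G' u ≠ K t ∧ γ.2 - G' u ≠ K t) ∧
        ∀ k : ℤ, ∀ y ∈ segment ℝ (K tb) x', G' u + k ≠ y :=
  Pool.Agent.H66.GEO.ex4a h hx hγ hm hW.old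

theorem ex4b (h : ON Q Lf κ l ψ K Y g ρ I) {A W : Set ℂ} {φW : ℂ → ℂ} {d : ℝ} {t1 : ℂ} {ε : ℝ} {y : ℂ} (hy : Mk Lf y)
    (hW : WX Q κ l ψ Y A W φW d t1 ε y) {G' : ℂ → ℂ}
    (hG : Lf (St (Real.log (1 - d)) 0) (fun t => φW (Complex.exp t)) G')
    (hL : LO Lf (St (Real.log (1 - d)) 0) (fun t => φW (Complex.exp t)) G' = LO Lf (St κ 0) ψ K) {c : ℂ}
    (hn : ∀ u ∈ St (Real.log (1 - d)) 0, nu K l (G' u) = 1 ∧ nu K l (c - G' u) = 1) :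
    ∃ m p : ℤ, p ≠ 0 ∧ ∀ u ∈ St (Real.log (1 - d)) 0, G' (u + 2 * Real.pi * Complex.I * m) = G' u + p := by
  refine ex4m h hW.d0 hW.d1 hG ?_ hL hn
  refine hy φW G' d hW.d0 hW.d1 hW.dif hW.inj ?_ ?_ hG
  · rw [hW.im]
    exact hW.bdd
  · rw [hW.im]
    exact hW.zer

end Pool.Agent.H91.GS
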