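import Pool.Agent.H91.GS.Defs
import Pool.Agent.H66.GEO.SC

/-!
# GEO*, module GL: the lifts of the strip maps (owner helper28). Copy of H28/GEO/GLd and H66/GEO/GL, `gg_gm`, `gg_lo`, `hol_s` of H66/GEO/SC

`gt_ex`: `G 0` from `XU.ex`, `G s` (`s ∈ U`) by `LS.ext` at the crossing point `XU.cr` (for `s = 0` too, or use `G 0`: `lk` for `s = 0` is trivial). `ab`: `t ↦ G 0 (2^s t)` lifts `t ↦ ψ 0 (2^s t) = F s (ψ s t)`
(`PT.stp`, `LS.sub`), `XU.pb` compares it with `G s`: no induction.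
-/

set_option autoImplicit false

open Filter Topology Metric Set

namespace Pool.Agent.H91.GS

open Pool.Agent.H66.GEO

variable {Q : Set ℂ} {Lf : Set ℂ → (ℂ → ℂ) → (ℂ → ℂ) → Prop} {th r : ℝ} {U : Set ℕ} {φ F : ℕ → ℂ → ℂ} {ω α : ℕ → ℂ} {x ψ G : ℕ → ℂ → ℂ}

theorem gt_ex (h : LS Q Lf) (hX : XU Q Lf th r U φ F ω α) (hP : PT Q th r U φ F ω α x ψ) : ∃ G : ℕ → ℂ → ℂ, GT Lf th r U ψ G := by
  have r0 : 0 < r := hX.th0.trans hX.thr
  have hlr : Real.log r < 0 := Real.log_neg r0 hX.r1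
  have hlt : Real.log th < Real.log r := Real.log_lt_log hX.th0 hX.thr
  have h2re : ∀ (s : ℕ) (t : ℂ), ((2 : ℂ) ^ s * t).re = 2 ^ s * t.re := by
    intro s t
    have : ((2 : ℂ) ^ s) = (((2 : ℝ) ^ s : ℝ) : ℂ) := by push_cast; rfl
    rw [this, Complex.re_ofReal_mul]
  have hlog : ∀ v : ℂ, th < ‖v‖ → ‖v‖ < 1 → Complex.log v ∈ Ss th 0 ∧ Complex.exp (Complex.log v) = v := by
    intro v h1 h2
    have hv0 : v ≠ 0 := by
      intro h0
      rw [h0, norm_zero] at h1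
      exact absurd h1 (not_lt.2 hX.th0.le)
    refine ⟨⟨?_, ?_⟩, Complex.exp_log hv0⟩
    · rw [Complex.log_re, pow_zero, div_one]
      exact Real.log_lt_log hX.th0 h1
    · rw [Complex.log_re]
      exact Real.log_neg (norm_pos_iff.2 hv0) h2
  -- the lift `G 0`
  have hG0 : ∃ G0 : ℂ → ℂ, Lf (Ss th 0) (ψ 0) G0 := by
    obtain ⟨S, H, G, u, v, hLf, hu, hv1, hvt, hH⟩ := hX.ex
    obtain ⟨hl, he⟩ := hlog v hvt hv1
    have hW := hP.w 0 hX.U0
    obtain ⟨G', hG', -⟩ := h.ext hLf (Ss th 0) (ψ 0) u (Complex.log v) (st_open _ _) (st_conv _ _) hW.dif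
      (fun t ht => ⟨hW.nQ t ht, hW.der t ht⟩) hu hl (by rw [hP.zer, he, hH])
    exact ⟨G', hG'⟩
  obtain ⟨G0, hG0⟩ := hG0
  -- the lifts `G s`
  have hlk : ∀ s : ℕ, ∃ G' : ℂ → ℂ, s ∈ U → Lf (Ss th s) (ψ s) G' ∧ ∃ t ∈ Ss th 0, ∃ t' ∈ Ss th s,
      t.re = Real.log r ∧ t'.re = Real.log r / 2 ^ s ∧ ψ 0 t = ψ s t' ∧ G0 t = G' t' := by
    intro s
    by_cases hs : s ∈ U
    swap
    · exact ⟨G0, fun h1 => absurd h1 hs⟩
    have hW := hP.w s hs
    obtain ⟨v, y, hv, hy, hB, he⟩ := hX.cr s hs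
    obtain ⟨hl, hev⟩ := hlog v (by rw [hv]; exact hX.thr) (by rw [hv]; exact hX.r1)
    have hyb : y ∈ ball (0 : ℂ) 1 := by simpa using hy
    obtain ⟨t', ht', hte⟩ := hW.sur y hyb (by rw [hB]; exact hX.thr)
    have hψ : ψ 0 (Complex.log v) = ψ s t' := by
      rw [hP.zer, hev, hte, he]
    obtain ⟨G', hG', hGe⟩ := h.ext hG0 (Ss th s) (ψ s) (Complex.log v) t' (st_open _ _) (st_conv _ _) hW.dif
      (fun t ht => ⟨hW.nQ t ht, hW.der t ht⟩) hl ht' hψ.symm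
    refine ⟨G', fun _ => ⟨hG', Complex.log v, hl, t', ht', ?_, ?_, hψ, hGe.symm⟩⟩
    · rw [Complex.log_re, hv]
    · obtain ⟨x', hx', hB', he'⟩ := hW.lev t' ht'
      have hxy : x' = y := hW.iφ hx' hyb (by rw [← he', hte])
      rw [hxy] at hB'
      rw [hB', Complex.norm_exp, h2re] at hB
      rw [eq_div_iff (by positivity), ← hB, Real.log_exp]
      ring
  choose Gs hGs using hlk
  let G : ℕ → ℂ → ℂ := fun n => if n = 0 then G0 else Gs n
  have hGz : G 0 = G0 := if_pos rfl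
  have hGn : ∀ s, s ≠ 0 → G s = Gs s := fun s hs => if_neg hs
  have hG : ∀ s ∈ U, Lf (Ss th s) (ψ s) (G s) := by
    intro s hs
    rcases eq_or_ne s 0 with h0 | h0
    · subst h0
      rw [hGz]
      exact hG0
    · rw [hGn s h0]
      exact (hGs s hs).1
  refine ⟨G, hG, ?_, ?_⟩
  · intro s hs
    rcases eq_or_ne s 0 with h0 | h0
    · subst h0
      have hm : ((Real.log r : ℝ) : ℂ) ∈ Ss th 0 := by
        refine ⟨?_, ?_⟩
        · rw [Complex.ofReal_re, pow_zero, div_one]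
          exact hlt
        · rw [Complex.ofReal_re]
          exact hlr
      exact ⟨_, hm, _, hm, Complex.ofReal_re _, by rw [Complex.ofReal_re, pow_zero, div_one], rfl, rfl⟩
    · rw [hGz, hGn s h0]
      exact (hGs s hs).2
  · intro s hs
    -- `t ↦ G 0 (2^s t)` lifts `t ↦ F s (ψ s t)`
    have hW := hP.w s hs
    have h1 : Lf (Ss th s) (fun u => F s (ψ s u)) (fun u => G 0 (2 ^ s * u)) := by
      refine h.sub (hG 0 hX.U0) (Ss th s) (fun u => 2 ^ s * u) _ _ (st_open _ _) (st_conv _ _) ?_ ?_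
      · exact (differentiable_id.const_mul ((2 : ℂ) ^ s)).differentiableOn
      · intro u hu
        refine ⟨ss_pow.1 hu, ?_, hP.stp s hs u hu, rfl⟩
        have : HasDerivAt (fun u : ℂ => (2 : ℂ) ^ s * u) ((2 : ℂ) ^ s * 1) u := (hasDerivAt_id u).const_mul _
        rw [this.deriv, mul_one]
        exact pow_ne_zero _ two_ne_zero
    have h2 : ∀ u ∈ Ss th s, ψ s u ∈ φ s '' ball 0 1 := by
      intro u hu
      obtain ⟨v, hv, -, he⟩ := hW.lev u hu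
      exact ⟨v, hv, he.symm⟩
    exact hX.pb s hs (hG s hs) h2 h1

/-- the groups of all levels are the same -/
theorem gt_gm (h : LS Q Lf) (hX : XU Q Lf th r U φ F ω α) (hG : GT Lf th r U ψ G) {s : ℕ} (hs : s ∈ U) :
    GM Lf (Ss th s) (ψ s) (G s) = GM Lf (Ss th 0) (ψ 0) (G 0) := by
  obtain ⟨t, ht, t', ht', -, -, -, he⟩ := hG.lk s hs
  exact trans h (hG.lf s hs) (hG.lf 0 hX.U0) ht' ht he.symm

theorem gt_lo (h : LS Q Lf) (hX : XU Q Lf th r U φ F ω α) (hG : GT Lf th r U ψ G) {s : ℕ} (hs : s ∈ U) :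
    LO Lf (Ss th s) (ψ s) (G s) = LO Lf (Ss th 0) (ψ 0) (G 0) := by
  obtain ⟨t, ht, t', ht', -, -, -, he⟩ := hG.lk s hs
  exact lo_trans h (hG.lf s hs) (hG.lf 0 hX.U0) ht' ht he.symm

/-- the holonomies of the lifts `G s` -/
theorem hol_t (h : LS Q Lf) (hX : XU Q Lf th r U φ F ω α) (hP : PT Q th r U φ F ω α x ψ) (hG : GT Lf th r U ψ G) {s : ℕ}
    (hs : s ∈ U) : ∃ g ∈ LO Lf (Ss th 0) (ψ 0) (G 0), ∀ t ∈ Ss th s, G s (t + 2 * Real.pi * Complex.I) = ac g (G s t) := by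
  obtain ⟨g, hg, h1⟩ := hol h (hG.lf s hs) (p := 2 * Real.pi * Complex.I) (ss_ne hX.th0 (hX.thr.trans hX.r1) s)
    (fun t ht => ss_add (by simp) ht) (hP.w s hs).per
  rw [gt_lo h hX hG hs] at hg
  exact ⟨g, hg, h1⟩

end Pool.Agent.H91.GS
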