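import Pool.Agent.H91.GS.Defs
import Pool.Agent.H66.GEO.YS

/-!
# GEO*, module YS: the domain `Y1 = {‖BB s‖ < r}` of one window (owner helper39). Copy of H39/TP/XR, H66/GEO/YS for `W1`
-/

set_option autoImplicit false

open Filter Topology Metric Set

namespace Pool.Agent.H91.GS

open Pool.Agent.H66.GEO
open Pool.Agent.H56.TH (Full)
open Pool.Agent.H81.RW (img_full)

/-- the domain `T^r` -/
def Y1 (φ : ℂ → ℂ) (ω α : ℕ → ℂ) (r : ℝ) (s : ℕ) : Set ℂ := φ '' {x | ‖x‖ < 1 ∧ ‖BB ω α s x‖ < r}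

variable {Q : Set ℂ} {th r : ℝ} {ω α : ℕ → ℂ} {s : ℕ} {φ ψ : ℂ → ℂ}

private theorem bl {x : ℂ} : ‖x‖ < 1 ↔ x ∈ ball (0 : ℂ) 1 := by rw [mem_ball_zero_iff]

private theorem d_open (hW : W1 Q th r ω α s φ ψ) : IsOpen {x : ℂ | ‖x‖ < 1 ∧ ‖BB ω α s x‖ < r} := by
  have h1 : ContinuousOn (fun x => ‖BB ω α s x‖) (ball 0 1) := (bb_dif hW.hω hW.hα s).continuousOn.norm
  have h2 : {x : ℂ | ‖x‖ < 1 ∧ ‖BB ω α s x‖ < r} = ball 0 1 ∩ (fun x => ‖BB ω α s x‖) ⁻¹' Iio r := by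
    ext x
    rw [mem_ofPred_eq, bl]
    rfl
  rw [h2]
  exact h1.isOpen_inter_preimage isOpen_ball isOpen_Iio

private theorem d_full (hW : W1 Q th r ω α s φ ψ) : Full {x : ℂ | ‖x‖ < 1 ∧ ‖BB ω α s x‖ < r} := by
  intro O hO hb hfr
  have hOb : O ⊆ ball 0 1 := Pool.Agent.H56.TH.full_ball 0 1 O hO hb (hfr.trans fun x hx => bl.1 hx.1)
  have hcl : closure O ⊆ ball (0 : ℂ) 1 := by
    rw [closure_eq_self_union_frontier]
    exact union_subset hOb (hfr.trans fun x hx => bl.1 hx.1)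
  have hd := bb_dif hW.hω hW.hα s
  have hfc : IsCompact (frontier O) := by
    refine Metric.isCompact_of_isClosed_isBounded isClosed_frontier ?_
    exact hb.closure.subset frontier_subset_closure
  intro z hz
  refine ⟨bl.2 (hOb hz), ?_⟩
  rcases (frontier O).eq_empty_or_nonempty with h0 | hn
  · exfalso
    have h1 : O = univ := by
      rcases isClopen_iff.1 (isClopen_iff_frontier_eq_empty.2 h0) with h | h
      · rw [h] at hz
        exact absurd hz (notMem_empty z)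
      · exact h
    rw [h1] at hb
    exact NormedSpace.unbounded_univ ℝ ℂ hb
  obtain ⟨w, hw, hmax⟩ := hfc.exists_isMaxOn hn
    ((hd.continuousOn.norm).mono (hfr.trans fun x hx => bl.1 hx.1))
  have h2 : ‖BB ω α s z‖ ≤ ‖BB ω α s w‖ := by
    refine Complex.norm_le_of_forall_mem_frontier_norm_le hb (f := BB ω α s) ?_ (fun y hy => hmax hy) (subset_closure hz)
    exact ⟨hd.mono hOb, hd.continuousOn.mono hcl⟩
  exact lt_of_le_of_lt h2 (hfr hw).2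

theorem y1_open (hW : W1 Q th r ω α s φ ψ) : IsOpen (Y1 φ ω α r s) := by
  rcases ((hW.dφ).analyticOnNhd isOpen_ball).is_constant_or_isOpen (convex_ball (0 : ℂ) 1).isPreconnected with h | h
  · exfalso
    obtain ⟨w, hw⟩ := h
    have e1 : (1 / 2 : ℂ) ∈ ball (0 : ℂ) 1 := by
      rw [mem_ball_zero_iff]
      norm_num
    have e2 : (0 : ℂ) ∈ ball (0 : ℂ) 1 := mem_ball_self one_pos
    have h3 := hW.iφ e1 e2 ((hw _ e1).trans (hw _ e2).symm)
    norm_num at h3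
  · exact h _ (fun x hx => bl.1 hx.1) (d_open hW)

theorem y1_full (hW : W1 Q th r ω α s φ ψ) : Full (Y1 φ ω α r s) :=
  img_full hW.dφ hW.iφ (fun _ hx => bl.1 hx.1) (d_full hW)

private theorem y1_cpt (hW : W1 Q th r ω α s φ ψ) :
    IsCompact (φ '' {x | x ∈ ball (0 : ℂ) 1 ∧ ‖BB ω α s x‖ ≤ r}) := by
  obtain ⟨ρ, hρ0, hρ1, hρ⟩ := bb_near hW.hω hW.hα s hW.r1
  obtain ⟨K, hK⟩ : ∃ K : Set ℂ, K = {x | x ∈ ball (0 : ℂ) 1 ∧ ‖BB ω α s x‖ ≤ r} := ⟨_, rfl⟩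
  have hsub : closedBall (0 : ℂ) ρ ⊆ ball 0 1 := closedBall_subset_ball hρ1
  have hK2 : K = closedBall (0 : ℂ) ρ ∩ (fun x => ‖BB ω α s x‖) ⁻¹' Iic r := by
    rw [hK]
    ext x
    constructor
    · rintro ⟨hx, hx2⟩
      refine ⟨?_, hx2⟩
      rw [mem_closedBall_zero_iff]
      by_contra h1
      rw [not_le] at h1
      exact absurd (hρ x h1 (mem_ball_zero_iff.1 hx)) (not_lt.2 hx2)
    · rintro ⟨hx, hx2⟩
      exact ⟨hsub hx, hx2⟩
  have hKc : IsCompact K := by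
    rw [hK2]
    refine (isCompact_closedBall (0 : ℂ) ρ).of_isClosed_subset ?_ inter_subset_left
    exact ((bb_dif hW.hω hW.hα s).continuousOn.norm.mono hsub).preimage_isClosed_of_isClosed isClosed_closedBall isClosed_Iic
  have hKb : K ⊆ ball 0 1 := by
    rw [hK]
    exact fun x hx => hx.1
  rw [← hK]
  exact hKc.image_of_continuousOn (hW.dφ.continuousOn.mono hKb)

private theorem y1_cl (hW : W1 Q th r ω α s φ ψ) :
    closure (Y1 φ ω α r s) ⊆ φ '' {x | x ∈ ball (0 : ℂ) 1 ∧ ‖BB ω α s x‖ ≤ r} :=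
  closure_minimal (image_mono fun _ hx => ⟨bl.1 hx.1, hx.2.le⟩) (y1_cpt hW).isClosed

theorem y1_bdd (hW : W1 Q th r ω α s φ ψ) : Bornology.IsBounded (Y1 φ ω α r s) :=
  (y1_cpt hW).isBounded.subset (subset_closure.trans (y1_cl hW))

theorem y1_sub : Y1 φ ω α r s ⊆ φ '' ball 0 1 := image_mono fun _ hx => bl.1 hx.1

private theorem lv_eq (hW : W1 Q th r ω α s φ ψ) {t x : ℂ} (ht : t ∈ Ss th s)
    (hx : x ∈ ball (0 : ℂ) 1) (he : ψ t = φ x) : ‖BB ω α s x‖ = Real.exp (2 ^ s * t.re) := by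
  obtain ⟨x', hx', h1, h2⟩ := hW.lev t ht
  have h3 : x' = x := hW.iφ hx' hx (h2.symm.trans he)
  rw [← h3, h1, Complex.norm_exp]
  congr 1
  have h4 : ((2 : ℂ) ^ s * t) = (((2 : ℝ) ^ s : ℝ) : ℂ) * t := by push_cast; ring
  rw [h4, Complex.re_ofReal_mul]

theorem y1_mem (hW : W1 Q th r ω α s φ ψ) {t : ℂ} (ht : t ∈ Ss th s) : ψ t ∈ Y1 φ ω α r s ↔ t.re < Real.log r / 2 ^ s := by
  have hr : 0 < r := hW.th0.trans hW.thr
  have h2 : (0 : ℝ) < 2 ^ s := by positivity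
  obtain ⟨x', hx', h1, h3⟩ := hW.lev t ht
  have h4 := lv_eq hW ht hx' h3
  have h5 : ‖BB ω α s x'‖ < r ↔ t.re < Real.log r / 2 ^ s := by
    rw [h4, lt_div_iff₀ h2, mul_comm, ← Real.lt_log_iff_exp_lt hr]
  rw [← h5]
  constructor
  · rintro ⟨x, ⟨hx, hxr⟩, he⟩
    have h6 : x = x' := hW.iφ (bl.1 hx) hx' (he.trans h3)
    rw [← h6]
    exact hxr
  · intro h
    exact ⟨x', ⟨bl.2 hx', h⟩, h3.symm⟩

theorem y1_in (hW : W1 Q th r ω α s φ ψ) {t : ℂ} (h1 : Real.log th / 2 ^ s < t.re) (h2 : t.re < Real.log r / 2 ^ s) :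
    ψ t ∈ Y1 φ ω α r s := by
  have h3 : Real.log r / 2 ^ s < 0 := div_neg_of_neg_of_pos (Real.log_neg (hW.th0.trans hW.thr) hW.r1) (by positivity)
  exact (y1_mem hW (ss_mem.2 ⟨h1, h2.trans h3⟩)).2 h2

theorem y1_out (hW : W1 Q th r ω α s φ ψ) {t : ℂ} (h1 : Real.log r / 2 ^ s ≤ t.re) (h2 : t.re < 0) : ψ t ∉ Y1 φ ω α r s := by
  have h3 : Real.log th / 2 ^ s < Real.log r / 2 ^ s :=
    div_lt_div_of_pos_right (Real.log_lt_log hW.th0 hW.thr) (by positivity)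
  intro h
  exact absurd ((y1_mem hW (ss_mem.2 ⟨h3.trans_le h1, h2⟩)).1 h) (not_lt.2 h1)

/-- frontier points are on the curve -/
theorem y1_bd_pt (hW : W1 Q th r ω α s φ ψ) {w : ℂ} (hw : w ∈ closure (Y1 φ ω α r s)) (hw' : w ∉ Y1 φ ω α r s) :
    w ∉ Q ∧ ∃ t ∈ Ss th s, t.re = Real.log r / 2 ^ s ∧ ψ t = w := by
  obtain ⟨x, ⟨hx, hxr⟩, rfl⟩ := y1_cl hW hw
  have h1 : ‖BB ω α s x‖ = r := by
    refine le_antisymm hxr ?_
    by_contra h2
    exact hw' ⟨x, ⟨bl.2 hx, not_le.1 h2⟩, rfl⟩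
  have h2 : th < ‖BB ω α s x‖ := h1 ▸ hW.thr
  refine ⟨hW.off x hx h2, ?_⟩
  obtain ⟨t, ht, hte⟩ := hW.sur x hx h2
  refine ⟨t, ht, ?_, hte⟩
  have h3 := lv_eq hW ht hx hte
  rw [h1] at h3
  have h4 : Real.log r = 2 ^ s * t.re := by rw [h3, Real.log_exp]
  rw [h4]
  field_simp

theorem y1_fr (hW : W1 Q th r ω α s φ ψ) : frontier (Y1 φ ω α r s) = ψ '' {t | t.re = Real.log r / 2 ^ s} := by
  have hr : 0 < r := hW.th0.trans hW.thr
  have h3 : Real.log r / 2 ^ s < 0 := div_neg_of_neg_of_pos (Real.log_neg hr hW.r1) (by positivity)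
  have h4 : Real.log th / 2 ^ s < Real.log r / 2 ^ s :=
    div_lt_div_of_pos_right (Real.log_lt_log hW.th0 hW.thr) (by positivity)
  refine Subset.antisymm ?_ ?_
  · intro w hw
    rw [(y1_open hW).frontier_eq] at hw
    obtain ⟨-, t, -, htr, rfl⟩ := y1_bd_pt hW hw.1 hw.2
    exact ⟨t, htr, rfl⟩
  · rintro _ ⟨t, ht, rfl⟩
    have ht' : t.re = Real.log r / 2 ^ s := ht
    have htS : t ∈ Ss th s := ss_mem.2 ⟨by rw [ht']; exact h4, by rw [ht']; exact h3⟩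
    rw [(y1_open hW).frontier_eq]
    refine ⟨?_, y1_out hW ht'.ge (by rw [ht']; exact h3)⟩
    have hc : ContinuousAt ψ t := hW.dif.continuousOn.continuousAt ((st_open _ _).mem_nhds htS)
    have h5 : Tendsto (fun e : ℝ => t - (e : ℂ)) (𝓝[>] 0) (𝓝 t) := by
      have h6 : Tendsto (fun e : ℝ => t - (e : ℂ)) (𝓝 0) (𝓝 (t - ((0 : ℝ) : ℂ))) :=
        (continuous_const.sub Complex.continuous_ofReal).tendsto 0
      rw [Complex.ofReal_zero, sub_zero] at h6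
      exact h6.mono_left nhdsWithin_le_nhds
    refine mem_closure_of_tendsto (hc.tendsto.comp h5) ?_
    have h7 : ∀ᶠ e : ℝ in 𝓝[>] 0, e < Real.log r / 2 ^ s - Real.log th / 2 ^ s :=
      (eventually_lt_nhds (by linarith)).filter_mono nhdsWithin_le_nhds
    filter_upwards [h7, self_mem_nhdsWithin] with e he1 he2
    have he2' : 0 < e := he2
    refine y1_in hW ?_ ?_
    · rw [Complex.sub_re, Complex.ofReal_re, ht']
      linarith
    · rw [Complex.sub_re, Complex.ofReal_re, ht']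
      linarith

end Pool.Agent.H91.GS
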