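import Pool.Agent.H91.GS.SC
import Pool.Agent.H91.GEO.No2

/-!
# GEO*, module No2: the normal form `G 0 (t + π i) = G 0 t + 1 / 2`
-/

set_option autoImplicit false

open Filter Topology Metric Set

namespace Pool.Agent.H91.GS

open Pool.Agent.H66.GEO

variable {Q : Set ℂ} {Lf : Set ℂ → (ℂ → ℂ) → (ℂ → ℂ) → Prop} {th r : ℝ} {U : Set ℕ} {φ F : ℕ → ℂ → ℂ} {ω α : ℕ → ℂ} {x ψ G : ℕ → ℂ → ℂ}

private theorem sc_mk {S : Set ℂ} {H G : ℂ → ℂ} {c : ℂ} (hc : c ≠ 0) (hL : Lf S H G) : Lf S H (fun u => c * (c⁻¹ * G u)) := by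
  have h1 : (fun u => c * (c⁻¹ * G u)) = G := by
    funext u
    rw [← mul_assoc, mul_inv_cancel₀ hc, one_mul]
  rw [h1]
  exact hL

theorem mk_sc {c : ℂ} {y : ℂ} (hy : Mk Lf y) : Mk (fun S H G => Lf S H (fun u => c * G u)) y := by
  intro φ G d h1 h2 h3 h4 h5 h6 h7 h8
  exact hy φ (fun u => c * G u) d h1 h2 h3 h4 h5 h6 h7 (fun t ht => by rw [h8 t ht])

theorem xu_sc (hX : XU Q Lf th r U φ F ω α) {c : ℂ} (hc : c ≠ 0) :
    XU Q (fun S H G => Lf S H (fun u => c * G u)) th r U φ F ω α where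
  th0 := hX.th0
  thr := hX.thr
  r1 := hX.r1
  U0 := hX.U0
  Ui := hX.Ui
  dφ := hX.dφ
  iφ := hX.iφ
  oφ := hX.oφ
  bφ := hX.bφ
  hω := hX.hω
  hα := hX.hα
  cv := hX.cv
  rel := hX.rel
  off := hX.off
  pb := by
    intro s hs S H G' G h1 h2 h3
    obtain ⟨a, b, ha, hab⟩ := hX.pb s hs h1 h2 h3
    refine ⟨a, c⁻¹ * b, ha, fun u hu => mul_left_cancel₀ hc ?_⟩
    rw [hab u hu, mul_add, ← mul_assoc c c⁻¹ b, mul_inv_cancel₀ hc, one_mul]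
    ring
  cr := hX.cr
  ex := by
    obtain ⟨S, H, G, u, x, h1, h2, h3, h4, h5⟩ := hX.ex
    exact ⟨S, H, fun u => c⁻¹ * G u, u, x, sc_mk hc h1, h2, h3, h4, h5⟩
  mq := by
    intro s hs
    obtain ⟨y, h1, h2, h3, h4⟩ := hX.mq s hs
    exact ⟨y, h1, h2, h3, mk_sc h4⟩

theorem gt_sc (hG : GT Lf th r U ψ G) {c : ℂ} (hc : c ≠ 0) :
    GT (fun S H G => Lf S H (fun u => c * G u)) th r U ψ (fun s t => c⁻¹ * G s t) where
  lf := fun s hs => sc_mk hc (hG.lf s hs)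
  lk := by
    intro s hs
    obtain ⟨t, ht, t', ht', h1, h2, h3, h4⟩ := hG.lk s hs
    exact ⟨t, ht, t', ht', h1, h2, h3, by rw [h4]⟩
  ab := by
    intro s hs
    obtain ⟨a, b, ha, hab⟩ := hG.ab s hs
    refine ⟨a, c⁻¹ * b, ha, fun t ht => ?_⟩
    rw [hab t ht]
    ring

/-- the scale factors are `± 2^s` -/
theorem no (h : LS Q Lf) (hX : XU Q Lf th r U φ F ω α) (hP : PT Q th r U φ F ω α x ψ) (hG : GT Lf th r U ψ G)
    (p0 : ∀ t ∈ Ss th 0, G 0 (t + Real.pi * Complex.I) = G 0 t + 1 / 2) {s : ℕ} (hs : s ∈ U) :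
    ∃ (e : ℝ) (b : ℂ), (e = 1 ∨ e = -1) ∧ (∀ t ∈ Ss th s, G 0 (2 ^ s * t) = e * 2 ^ s * G s t + b) ∧
      ∀ t ∈ Ss th s, G s (t + 2 * Real.pi * Complex.I) = G s t + e := by
  obtain ⟨c, -, h1, h2, h3, h4, h5⟩ := no_all h hX hP hG
  obtain ⟨t, ht⟩ := ss_ne hX.th0 (hX.thr.trans hX.r1) 0
  have hc : c = 1 := by
    have e1 := h2 t ht
    rw [p0 t ht] at e1
    have e2 := add_left_cancel e1
    linear_combination (-2) * e2
  subst hc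
  obtain ⟨e, b, f1, f2, f3⟩ := h5 s hs
  exact ⟨e, b, f1, f2, fun t ht => by rw [f3 t ht, mul_one]⟩

/-- reduction to the normal form -/
theorem nrm (h : LS Q Lf) (hX : XU Q Lf th r U φ F ω α) (hP : PT Q th r U φ F ω α x ψ) (hG : GT Lf th r U ψ G) :
    ∃ (Lf' : Set ℂ → (ℂ → ℂ) → (ℂ → ℂ) → Prop) (G' : ℕ → ℂ → ℂ), LS Q Lf' ∧ XU Q Lf' th r U φ F ω α ∧ GT Lf' th r U ψ G' ∧
      ∀ t ∈ Ss th 0, G' 0 (t + Real.pi * Complex.I) = G' 0 t + 1 / 2 := by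
  obtain ⟨c, hc, -, h2⟩ := sc h hX hP hG
  refine ⟨_, _, ls_sc h hc, xu_sc hX hc, gt_sc hG hc, fun t ht => ?_⟩
  show c⁻¹ * G 0 (t + Real.pi * Complex.I) = c⁻¹ * G 0 t + 1 / 2
  rw [h2 t ht]
  field_simp

end Pool.Agent.H91.GS
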