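import Pool.Agent.H91.GS.GL
import Pool.Agent.H66.GEO.NO

/-!
# GEO*, module SC: no scaling (owner helper69). Copy of H66/GEO/SC `sc` and NO `no_inj`, `no_all`

The only change in `sc`: instead of level `1` take a level `s ∈ U`, `s ≠ 0` (`XU.Ui`: `U` is infinite); the half period of `G 1` is replaced by the period `2 π i / 2^s` of level `s`:
`G s (t + 2 π i / 2^s) = ac g (G s t)` (from `ab`: `2^s (t + 2 π i / 2^s) = 2^s t + 2 π i`), which lifts `ψ s`, so `ψ s (t + 2 π i / 2^s) = ψ s t` (`gm_dis`): against `(hP.w s hs).inj`.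
(The holonomy of `G s`: `g1 = (τ)^(2^s)`, commutes with `g`: same fixed point.)
-/

set_option autoImplicit false

open Filter Topology Metric Set

namespace Pool.Agent.H91.GS

open Pool.Agent.H66.GEO

variable {Q : Set ℂ} {Lf : Set ℂ → (ℂ → ℂ) → (ℂ → ℂ) → Prop} {th r : ℝ} {U : Set ℕ} {φ F : ℕ → ℂ → ℂ} {ω α : ℕ → ℂ} {x ψ G : ℕ → ℂ → ℂ}

theorem sc (h : LS Q Lf) (hX : XU Q Lf th r U φ F ω α) (hP : PT Q th r U φ F ω α x ψ) (hG : GT Lf th r U ψ G) :
    ∃ c : ℂ, c ≠ 0 ∧ ((1, c) : ℝ × ℂ) ∈ LO Lf (Ss th 0) (ψ 0) (G 0) ∧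
      ∀ t ∈ Ss th 0, G 0 (t + Real.pi * Complex.I) = G 0 t + c / 2 := by
  have hth1 : th < 1 := hX.thr.trans hX.r1
  have hop : ∀ s ∈ U, IsOpen (Ss th s) := fun s hs => (h.op (hG.lf s hs)).1
  have hpi : ∀ s, ∀ t ∈ Ss th s, t + Real.pi * Complex.I ∈ Ss th s := fun s t ht => ss_add pi_re ht
  obtain ⟨a, b, ha, hab⟩ := hsym h (hG.lf 0 hX.U0) (hpi 0) hP.hlf
  obtain ⟨g, hg, hgt⟩ := hol_t h hX hP hG hX.U0
  have h2pi : ∀ t : ℂ, t + 2 * Real.pi * Complex.I = (t + Real.pi * Complex.I) + Real.pi * Complex.I := by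
    intro t
    ring
  have hgab : g = (a * a, a * b + b) := by
    obtain ⟨u, hu⟩ := ss_ne hX.th0 hth1 0
    refine aff_id (hop 0 hX.U0) (h.dG (hG.lf 0 hX.U0)).1 hu ((h.dG (hG.lf 0 hX.U0)).2 u hu) ?_
    filter_upwards [(hop 0 hX.U0).mem_nhds hu] with v hv
    rw [← hgt v hv, h2pi, hab _ (hpi 0 v hv), hab v hv]
    simp only [ac]
    push_cast
    ring
  -- period `2 π i` is impossible
  have hnp : ¬ ∀ t ∈ Ss th 0, G 0 (t + 2 * Real.pi * Complex.I) = G 0 t := by
    intro hp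
    have hψ : ψ 0 = fun t => φ 0 (Complex.exp t) := funext hP.zer
    have hSs : Ss th 0 = St (Real.log (1 - (1 - th))) 0 := by
      unfold Ss
      rw [pow_zero, div_one, sub_sub_cancel]
    have hL := hG.lf 0 hX.U0
    rw [hψ, hSs] at hL
    have h4 : ∀ t ∈ St (Real.log (1 - (1 - th))) 0, G 0 (t + 4 * Real.pi * Complex.I) = G 0 t := by
      intro t ht
      rw [← hSs] at ht
      have h5 : t + 4 * Real.pi * Complex.I = (t + 2 * Real.pi * Complex.I) + 2 * Real.pi * Complex.I := by ring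
      rw [h5, hp _ (ss_add (by simp) ht), hp t ht]
    refine h.typ (φ 0) (G 0) (1 - th) (by linarith) (by linarith [hX.th0]) (hX.dφ 0 hX.U0) (hX.iφ 0 hX.U0) hX.bφ
      ⟨0, mem_ball_self one_pos, ?_⟩ hL h4
    have h7 := hX.oφ 0 (mem_ball_self one_pos)
    rw [neg_zero] at h7
    have h8 : (2 : ℂ) * φ 0 0 = 0 := by linear_combination h7
    simpa using h8
  have habs : a * a = 1 := by
    by_contra hne
    have hg1 : |g.1| ≠ 1 := by
      rw [hgab]
      show |a * a| ≠ 1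
      rw [abs_mul_self]
      exact hne
    obtain ⟨s, hs, hs0⟩ := hX.Ui.exists_gt 0
    obtain ⟨g1, hg1m, hg1t⟩ := hol_t h hX hP hG hs
    have hcomm := lo_comm h (hG.lf 0 hX.U0) (ss_ne hX.th0 hth1 0) hg hg1m hg1
    obtain ⟨A, B, hA, hAB⟩ := hG.ab s hs
    have hA' : (A : ℂ) ≠ 0 := by exact_mod_cast hA
    have h2s : ((2 : ℂ) ^ s) ≠ 0 := pow_ne_zero _ two_ne_zero
    obtain ⟨p, hp⟩ : ∃ p : ℂ, p = 2 * Real.pi * Complex.I / 2 ^ s := ⟨_, rfl⟩
    have hpre : p.re = 0 := by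
      have h3 : (2 * Real.pi * Complex.I / 2 ^ s : ℂ) = ((2 * Real.pi / 2 ^ s : ℝ) : ℂ) * Complex.I := by
        push_cast
        ring
      rw [hp, h3, Complex.re_ofReal_mul, Complex.I_re, mul_zero]
    have h2p : (2 : ℂ) ^ s * p = 2 * Real.pi * Complex.I := by
      rw [hp]
      field_simp
    -- the small period of `G s`
    have hk : ∀ t ∈ Ss th s, G s (t + p) = (a * a : ℝ) * G s t + (g.1 * B + g.2 - B) / A := by
      intro t ht
      have h3 := hAB t ht
      have h4 := hAB _ (ss_add hpre ht)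
      have h5 : (2 : ℂ) ^ s * (t + p) = 2 ^ s * t + 2 * Real.pi * Complex.I := by
        rw [mul_add, h2p]
      rw [h5, hgt _ (ss_two ht), h3] at h4
      have h6 : (A : ℂ) * G s (t + p) = (g.1 * (A * G s t + B) + g.2) - B := by
        simp only [ac] at h4
        linear_combination -h4
      have h7 : (g.1 : ℂ) = ((a * a : ℝ) : ℂ) := by rw [hgab]
      rw [← h7]
      field_simp
      linear_combination h6
    obtain ⟨D, hD⟩ : ∃ D : ℂ, D = (g.1 * B + g.2 - B) / A := ⟨_, rfl⟩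
    rw [← hD] at hk
    have hkn : ∀ n : ℕ, ∀ t ∈ Ss th s, G s (t + n * p) = ((a * a) ^ n : ℝ) * G s t +
        (∑ i ∈ Finset.range n, ((a * a : ℝ) : ℂ) ^ i) * D := by
      intro n
      induction n with
      | zero =>
        intro t _
        simp
      | succ n ih =>
        intro t ht
        have h3 : t + ((n + 1 : ℕ) : ℂ) * p = (t + n * p) + p := by
          push_cast
          ring
        have hn : ((n : ℂ) * p).re = 0 := by
          rw [Complex.mul_re, hpre]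
          simp
        rw [h3, hk _ (ss_add hn ht), ih t ht, Finset.sum_range_succ']
        have h4 : (∑ i ∈ Finset.range n, ((a * a : ℝ) : ℂ) ^ (i + 1)) =
            ((a * a : ℝ) : ℂ) * ∑ i ∈ Finset.range n, ((a * a : ℝ) : ℂ) ^ i := by
          rw [Finset.mul_sum]
          exact Finset.sum_congr rfl fun i _ => by rw [pow_succ]; ring
        rw [h4]
        push_cast
        ring
    have hg1' : g1 = ((a * a) ^ (2 ^ s : ℕ), (∑ i ∈ Finset.range (2 ^ s), ((a * a : ℝ) : ℂ) ^ i) * D) := by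
      obtain ⟨u, hu⟩ := ss_ne hX.th0 hth1 s
      refine aff_id (hop s hs) (h.dG (hG.lf s hs)).1 hu ((h.dG (hG.lf s hs)).2 u hu) ?_
      filter_upwards [(hop s hs).mem_nhds hu] with v hv
      have h3 : v + 2 * Real.pi * Complex.I = v + ((2 ^ s : ℕ) : ℂ) * p := by
        push_cast
        rw [h2p]
      rw [← hg1t v hv, h3, hkn _ v hv]
      rfl
    have hl0 : (0 : ℝ) ≤ a * a := mul_self_nonneg a
    have hln : (a * a) ^ (2 ^ s : ℕ) ≠ 1 := by
      intro h3
      exact hne ((pow_eq_one_iff_of_nonneg hl0 (pow_ne_zero _ two_ne_zero)).1 h3)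
    have hDg : D = g.2 := by
      rw [hg1'] at hcomm
      have h3 := congrArg Prod.snd hcomm
      have h4 : g.2 = a * b + b := by rw [hgab]
      have h41 : g.1 = a * a := by rw [hgab]
      simp only [mu] at h3
      rw [h41] at h3
      have hgeo := geom_sum_mul (((a * a : ℝ) : ℂ)) (2 ^ s)
      have h5 : ((((a * a) ^ (2 ^ s : ℕ) - 1 : ℝ)) : ℂ) * (D - g.2) = 0 := by
        push_cast
        push_cast at h3 hgeo
        linear_combination h3 - D * hgeo
      have h6 : ((((a * a) ^ (2 ^ s : ℕ) - 1 : ℝ)) : ℂ) ≠ 0 := by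
        have : ((a * a) ^ (2 ^ s : ℕ) - 1 : ℝ) ≠ 0 := sub_ne_zero.2 hln
        exact_mod_cast this
      exact sub_eq_zero.1 ((mul_eq_zero.1 h5).resolve_left h6)
    obtain ⟨u, hu⟩ := ss_ne hX.th0 hth1 s
    have hgm : g ∈ GM Lf (Ss th s) (ψ s) (G s) := by
      rw [gt_gm h hX hG hs]
      exact lo_gm h (hG.lf 0 hX.U0) hg
    have h3 : ac g (G s u) = G s (u + p) := by
      rw [hk u hu, hDg, hgab]
      rfl
    have h4 := gm_dis h (hG.lf s hs) hgm hu (ss_add hpre hu) h3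
    obtain ⟨k, hk'⟩ := (hP.w s hs).inj u hu _ (ss_add hpre hu) h4
    have h5 : p = 2 * Real.pi * Complex.I * k := by linear_combination hk'
    have h6 : (2 * Real.pi * Complex.I : ℂ) * 1 = 2 * Real.pi * Complex.I * (2 ^ s * k) := by
      have h61 := h2p
      rw [h5] at h61
      linear_combination -h61
    have h7 := mul_left_cancel₀ Complex.two_pi_I_ne_zero h6
    have h8 : (1 : ℤ) = 2 ^ s * k := by exact_mod_cast h7
    have h9 : (2 : ℤ) ∣ 1 := by
      rw [h8]
      exact (dvd_pow_self 2 hs0.ne').mul_right k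
    exact absurd h9 (by decide)
  have ha1 : a = 1 ∨ a = -1 := by
    have h3 : (a - 1) * (a + 1) = 0 := by linarith
    rcases mul_eq_zero.1 h3 with h4 | h4
    · left
      linarith
    · right
      linarith
  rcases ha1 with ha1 | ha1
  · refine ⟨2 * b, ?_, ?_, ?_⟩
    · intro h3
      have hb : b = 0 := by simpa using h3
      apply hnp
      intro t ht
      rw [h2pi, hab _ (hpi 0 t ht), hab t ht, ha1, hb]
      push_cast
      ring
    · have h3 : ((1, 2 * b) : ℝ × ℂ) = g := by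
        rw [hgab, ha1]
        refine Prod.ext ?_ ?_
        · simp
        · simp only
          push_cast
          ring
      rw [h3]
      exact hg
    · intro t ht
      rw [hab t ht, ha1]
      push_cast
      ring
  · exfalso
    apply hnp
    intro t ht
    rw [h2pi, hab _ (hpi 0 t ht), hab t ht, ha1]
    push_cast
    ring

/-- injectivity modulo `2 π i` and LEMMA W for one domain -/
theorem no_inj1 (h : LS Q Lf) {s : ℕ} {φ₁ ψ₁ K : ℂ → ℂ} (hW1 : W1 Q th r ω α s φ₁ ψ₁)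
    (hK : Lf (Ss th s) ψ₁ K) {e : ℂ} (he0 : e ≠ 0) (he : ((1, e) : ℝ × ℂ) ∈ LO Lf (Ss th s) ψ₁ K) {m : ℤ}
    (hm : ∀ t ∈ Ss th s, K (t + 2 * Real.pi * Complex.I) = K t + m * e) : m = 1 ∨ m = 0 ∨ m = -1 := by
  have hth1 : th < 1 := hW1.thr.trans hW1.r1
  have hlog : Real.log th / 2 ^ s < 0 := div_neg_of_neg_of_pos (Real.log_neg hW1.th0 hth1) (by positivity)
  have h2pi : (2 * Real.pi * Complex.I : ℂ) ≠ 0 := Complex.two_pi_I_ne_zero
  have hKe : DifferentiableOn ℂ (fun t => K t / e) (Ss th s) := (h.dG hK).1.div_const e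
  have hW : WE (Real.log th / 2 ^ s) 0 (fun t => Complex.exp (2 * Real.pi * Complex.I * (K t / e))) := by
    refine ⟨(hKe.const_mul _).cexp, ?_, fun t _ => Complex.exp_ne_zero _, ?_⟩
    · intro t ht
      rw [hm t ht, Complex.exp_eq_exp_iff_exists_int]
      refine ⟨m, ?_⟩
      field_simp
    · intro t ht t' ht' hE
      obtain ⟨k, hk⟩ := Complex.exp_eq_exp_iff_exists_int.1 hE
      have h1 : K t = K t' + k * e := by
        have h2 : K t / e = K t' / e + k := by
          apply mul_left_cancel₀ h2pi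
          rw [hk]
          ring
        field_simp at h2
        rw [h2]
        ring
      have h3 : ac (1, k * e) (K t') = K t := by
        rw [h1]
        simp [ac]
      have h4 := gm_dis h hK (lo_gm h hK (lo_int he k)) ht' ht h3
      exact hW1.inj t ht t' ht' h4.symm
  have hc1 : Real.log th / 2 ^ s < Real.log th / 2 ^ s / 2 := by linarith
  have hc2 : Real.log th / 2 ^ s / 2 < 0 := by linarith
  have h1 := (lemW hW hc1 hc2).1
  have hq := line_smooth hc1 hc2 hKe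
  have hmem : ∀ y : ℝ, ((Real.log th / 2 ^ s / 2 : ℝ) : ℂ) + 2 * Real.pi * Complex.I * y ∈ Ss th s := by
    intro y
    have hre : (((Real.log th / 2 ^ s / 2 : ℝ) : ℂ) + 2 * Real.pi * Complex.I * y).re = Real.log th / 2 ^ s / 2 := by
      simp only [Complex.add_re, Complex.ofReal_re, Complex.mul_re, Complex.mul_im, Complex.re_ofNat, Complex.im_ofNat,
        Complex.ofReal_im, Complex.I_re, Complex.I_im]
      ring
    exact ⟨by rw [hre]; exact hc1, by rw [hre]; exact hc2⟩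
  have h2 := (wn_exp hq (n := m) (by
    intro y
    have h3 : ((Real.log th / 2 ^ s / 2 : ℝ) : ℂ) + 2 * Real.pi * Complex.I * ((y + 1 : ℝ) : ℂ) =
        (((Real.log th / 2 ^ s / 2 : ℝ) : ℂ) + 2 * Real.pi * Complex.I * y) + 2 * Real.pi * Complex.I := by
      push_cast
      ring
    rw [h3, hm _ (hmem y)]
    field_simp)).2
  rw [h2] at h1
  rcases h1 with h3 | h3 | h3
  · left
    exact_mod_cast h3
  · right
    left
    exact_mod_cast h3
  · right
    right
    exact_mod_cast h3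

theorem no_all (h : LS Q Lf) (hX : XU Q Lf th r U φ F ω α) (hP : PT Q th r U φ F ω α x ψ) (hG : GT Lf th r U ψ G) :
    ∃ c : ℂ, c ≠ 0 ∧ ((1, c) : ℝ × ℂ) ∈ LO Lf (Ss th 0) (ψ 0) (G 0) ∧
      (∀ t ∈ Ss th 0, G 0 (t + Real.pi * Complex.I) = G 0 t + c / 2) ∧
      (∀ g ∈ LO Lf (Ss th 0) (ψ 0) (G 0), |g.1| = 1) ∧
      (∀ ρ : ℝ, ((1, ρ * c) : ℝ × ℂ) ∈ LO Lf (Ss th 0) (ψ 0) (G 0) → ∃ m : ℤ, ρ = m) ∧
      ∀ s ∈ U, ∃ (ε : ℝ) (b : ℂ), (ε = 1 ∨ ε = -1) ∧ (∀ t ∈ Ss th s, G 0 (2 ^ s * t) = ε * 2 ^ s * G s t + b) ∧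
        ∀ t ∈ Ss th s, G s (t + 2 * Real.pi * Complex.I) = G s t + ε * c := by
  obtain ⟨c, hc0, hc, hhalf⟩ := sc h hX hP hG
  have hth1 : th < 1 := hX.thr.trans hX.r1
  have hper : ∀ t ∈ Ss th 0, G 0 (t + 2 * Real.pi * Complex.I) = G 0 t + c := by
    intro t ht
    have h1 : t + 2 * Real.pi * Complex.I = (t + Real.pi * Complex.I) + Real.pi * Complex.I := by ring
    rw [h1, hhalf _ (ss_add pi_re ht), hhalf t ht]
    ring
  have hpern : ∀ n : ℕ, ∀ t ∈ Ss th 0, G 0 (t + n * (2 * Real.pi * Complex.I)) = G 0 t + n * c := by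
    intro n
    induction n with
    | zero =>
      intro t _
      simp
    | succ n ih =>
      intro t ht
      have h1 : t + ((n + 1 : ℕ) : ℂ) * (2 * Real.pi * Complex.I) =
          (t + n * (2 * Real.pi * Complex.I)) + 2 * Real.pi * Complex.I := by
        push_cast
        ring
      rw [h1, hper _ (ss_add (by simp) ht), ih t ht]
      push_cast
      ring
  have habs : ∀ g ∈ LO Lf (Ss th 0) (ψ 0) (G 0), |g.1| = 1 := by
    intro g hg
    by_contra hne
    exact hc0 (lo_scal h (hG.lf 0 hX.U0) (ss_ne hX.th0 hth1 0) hg hne hc)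
  have hreal : ∀ ρ : ℝ, ((1, ρ * c) : ℝ × ℂ) ∈ LO Lf (Ss th 0) (ψ 0) (G 0) → ∃ m : ℤ, ρ = m := by
    intro ρ hρ
    obtain ⟨e, m, n, he0, he, hme, hne⟩ := lo_gen h (hG.lf 0 hX.U0) (ss_ne hX.th0 hth1 0) hc0 hc hρ
    have hm : m = 1 ∨ m = 0 ∨ m = -1 := by
      refine no_inj1 h (hP.w 0 hX.U0) (hG.lf 0 hX.U0) he0 he fun t ht => ?_
      rw [hper t ht, hme]
    have hcast : ∀ k : ℤ, (ρ : ℂ) = (k : ℂ) → ρ = k := fun k hk => by exact_mod_cast hk
    rcases hm with hm | hm | hm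
    · refine ⟨n, hcast n ?_⟩
      rw [hm] at hme
      apply mul_right_cancel₀ he0
      rw [← hne, hme]
      push_cast
      ring
    · exact absurd (by rw [hme, hm]; simp) hc0
    · refine ⟨-n, hcast (-n) ?_⟩
      rw [hm] at hme
      apply mul_right_cancel₀ he0
      have h1 : (ρ : ℂ) * e = -(ρ * c) := by
        rw [hme]
        push_cast
        ring
      rw [h1, hne]
      push_cast
      ring
  refine ⟨c, hc0, hc, hhalf, habs, hreal, fun s hs => ?_⟩
  obtain ⟨a, b, ha, hab⟩ := hG.ab s hs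
  have ha' : (a : ℂ) ≠ 0 := by exact_mod_cast ha
  have hs3 : ∀ t ∈ Ss th s, G s (t + 2 * Real.pi * Complex.I) = G s t + ((2 ^ s / a : ℝ) : ℂ) * c := by
    intro t ht
    have h1 := hab t ht
    have h2 := hab _ (ss_add (p := 2 * Real.pi * Complex.I) (by simp) ht)
    have h3 : (2 : ℂ) ^ s * (t + 2 * Real.pi * Complex.I) = 2 ^ s * t + ((2 ^ s : ℕ) : ℂ) * (2 * Real.pi * Complex.I) := by
      push_cast
      ring
    rw [h3, hpern _ _ (ss_two ht), h1] at h2
    push_cast at h2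
    have h4 : (a : ℂ) * G s (t + 2 * Real.pi * Complex.I) = a * G s t + 2 ^ s * c := by linear_combination -h2
    apply mul_left_cancel₀ ha'
    rw [h4]
    push_cast
    field_simp
  obtain ⟨m, hm⟩ : ∃ m : ℤ, (2 ^ s / a : ℝ) = m := by
    refine hreal _ ?_
    obtain ⟨g, hg, hgt⟩ := hol_t h hX hP hG hs
    have hgs : ((1, ((2 ^ s / a : ℝ) : ℂ) * c) : ℝ × ℂ) = g := by
      obtain ⟨u, hu⟩ := ss_ne hX.th0 hth1 s
      have hop : IsOpen (Ss th s) := (h.op (hG.lf s hs)).1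
      refine aff_id hop (h.dG (hG.lf s hs)).1 hu ((h.dG (hG.lf s hs)).2 u hu) ?_
      filter_upwards [hop.mem_nhds hu] with v hv
      rw [← hgt v hv, hs3 v hv]
      simp [ac]
    rw [hgs]
    exact hg
  have hms : m = 1 ∨ m = 0 ∨ m = -1 := by
    refine no_inj1 h (hP.w s hs) (hG.lf s hs) hc0 ?_ fun t ht => ?_
    · rw [gt_lo h hX hG hs]
      exact hc
    · rw [hs3 t ht, hm]
      push_cast
      ring
  have h2a : (2 : ℝ) ^ s = m * a := by
    rw [← hm]
    field_simp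
  have hfin : ∀ ε : ℝ, (ε = 1 ∨ ε = -1) → a = ε * 2 ^ s → ∃ (ε : ℝ) (b : ℂ), (ε = 1 ∨ ε = -1) ∧
      (∀ t ∈ Ss th s, G 0 (2 ^ s * t) = ε * 2 ^ s * G s t + b) ∧
        ∀ t ∈ Ss th s, G s (t + 2 * Real.pi * Complex.I) = G s t + ε * c := by
    intro ε hε hεa
    have hac : (a : ℂ) = ε * 2 ^ s := by
      rw [hεa]
      push_cast
      ring
    have hεε : (ε : ℂ) * ε = 1 := by
      rcases hε with hε | hε
      · rw [hε]
        simp
      · rw [hε]
        simp
    have hε0 : (ε : ℂ) ≠ 0 := by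
      intro h0
      rw [h0] at hεε
      simp at hεε
    refine ⟨ε, b, hε, ?_, ?_⟩
    · intro t ht
      rw [hab t ht, hac]
    · intro t ht
      rw [hs3 t ht]
      push_cast
      rw [hac]
      field_simp
      linear_combination -(c * hεε)
  rcases hms with hms | hms | hms
  · rw [hms] at h2a
    exact hfin 1 (Or.inl rfl) (by push_cast at h2a; linarith)
  · rw [hms] at h2a
    have : (0 : ℝ) < 2 ^ s := by positivity
    push_cast at h2a
    linarith
  · rw [hms] at h2a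
    exact hfin (-1) (Or.inr rfl) (by push_cast at h2a; linarith)

end Pool.Agent.H91.GS
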