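import Pool.Agent.H91.GS.YS
import Pool.Agent.H91.GS.EX4
import Pool.Agent.H39.TP.RM

/-!
# GEO*, module TP: the window `W` around a point `y` of `Q` (owner helper39; filled by helper65). Copy of H39/TP/Main with `y` in place of `0`
-/

set_option autoImplicit false

open Filter Topology Metric Set
open Pool.Agent.H56.TH (Full)

namespace Pool.Agent.H91.GS

open Pool.Agent.H66.GEO
open Pool.Agent.H81.RW (full_diff full_comp comp_frontier)
open Pool.Agent.H39.TP (riem_full)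

theorem tp_wx {Q : Set ℂ} {th r : ℝ} {ω α : ℕ → ℂ} {s : ℕ} {φ ψ : ℂ → ℂ} (hQ : IsClosed Q) (hW : W1 Q th r ω α s φ ψ) {y : ℂ}
    (hyQ : y ∈ Q) (hyY : y ∈ Y1 φ ω α r s) {A N : Set ℂ} (hA : IsCompact A) (hAc : IsPreconnected A) (hAN : A ⊆ N) (hN : Full N)
    (hNQ : Disjoint N Q) {a : ℂ} (haA : a ∈ A) (haX : a ∉ Y1 φ ω α r s) :
    ∃ (W : Set ℂ) (φW : ℂ → ℂ) (d : ℝ) (t1 : ℂ) (ε : ℝ),
      WX Q (Real.log th / 2 ^ s) (Real.log r / 2 ^ s) ψ (Y1 φ ω α r s) A W φW d t1 ε y := by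
  have hUo : IsOpen (Y1 φ ω α r s \ A) := (y1_open hW).sdiff hA.isClosed
  obtain ⟨W, hWe⟩ : ∃ W, W = connectedComponentIn (Y1 φ ω α r s \ A) y := ⟨_, rfl⟩
  have h0A : y ∉ A := fun h1 => Set.disjoint_left.1 hNQ (hAN h1) hyQ
  have h0U : y ∈ Y1 φ ω α r s \ A := ⟨hyY, h0A⟩
  have h0W : y ∈ W := hWe ▸ mem_connectedComponentIn h0U
  have hWo : IsOpen W := hWe ▸ hUo.connectedComponentIn
  have hWc : IsPreconnected W := hWe ▸ isPreconnected_connectedComponentIn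
  have hWU : W ⊆ Y1 φ ω α r s \ A := hWe ▸ connectedComponentIn_subset _ _
  have hWb : Bornology.IsBounded W := (y1_bdd hW).subset fun x hx => (hWU hx).1
  have hWF : Full W := by
    rw [hWe]
    refine full_comp ?_ y
    have h1 := full_diff (y1_full hW) hAc (fun h2 => haX (h2 (subset_closure haA)))
    rwa [hA.isClosed.closure_eq] at h1
  have hfrU : ∀ w ∈ frontier W, w ∉ Y1 φ ω α r s \ A := by
    intro w hw
    have h1 := comp_frontier hUo y (hWe ▸ hw)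
    rw [hUo.frontier_eq] at h1
    exact h1.2
  have hclX : closure W ⊆ closure (Y1 φ ω α r s) := closure_mono fun x hx => (hWU hx).1
  have hfrQ : ∀ w ∈ frontier W, w ∉ Q := by
    intro w hw hwQ
    have h1 := hfrU w hw
    by_cases hwA : w ∈ A
    · exact Set.disjoint_left.1 hNQ (hAN hwA) hwQ
    · have hwX : w ∉ Y1 φ ω α r s := fun h2 => h1 ⟨h2, hwA⟩
      exact (y1_bd_pt hW (hclX (frontier_subset_closure hw)) hwX).1 hwQ
  obtain ⟨φW, g, hφ, hg, hφW, hgW, hgφ, hφg, hφ0⟩ := riem_full hWo hWc hWb hWF h0W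
  have hinj : InjOn φW (ball 0 1) := fun x hx y hy hxy => by rw [← hgφ x hx, ← hgφ y hy, hxy]
  have himg : φW '' ball 0 1 = W := by
    refine Subset.antisymm (image_subset_iff.2 hφW) ?_
    intro w hw
    exact ⟨g w, hgW hw, hφg w hw⟩
  -- the collar
  have hCk : IsCompact (Q ∩ closure W) :=
    (Metric.isCompact_of_isClosed_isBounded isClosed_closure hWb.closure).inter_left hQ
  have hCW : Q ∩ closure W ⊆ W := by
    rintro w ⟨hwQ, hwc⟩
    by_contra hwW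
    refine hfrQ w ?_ hwQ
    rw [hWo.frontier_eq]
    exact ⟨hwc, hwW⟩
  have hgK : IsCompact (g '' (Q ∩ closure W)) := hCk.image_of_continuousOn (hg.continuousOn.mono hCW)
  have hgb : g '' (Q ∩ closure W) ⊆ ball 0 1 := by
    rintro _ ⟨w, hw, rfl⟩
    exact hgW (hCW hw)
  obtain ⟨ρ, hρ0, hρ1, hρ⟩ : ∃ ρ : ℝ, 0 < ρ ∧ ρ < 1 ∧ g '' (Q ∩ closure W) ⊆ closedBall 0 ρ := by
    have hne : (g '' (Q ∩ closure W)).Nonempty := ⟨g y, y, ⟨hyQ, subset_closure h0W⟩, rfl⟩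
    obtain ⟨x, hx, hmax⟩ := hgK.exists_isMaxOn hne continuous_norm.continuousOn
    refine ⟨max ‖x‖ (1 / 2), lt_max_of_lt_right (by norm_num), max_lt (mem_ball_zero_iff.1 (hgb hx)) (by norm_num), ?_⟩
    intro y hy
    rw [mem_closedBall_zero_iff]
    exact (hmax hy).trans (le_max_left _ _)
  have hcol : ∀ x ∈ ball (0 : ℂ) 1, 1 - (1 - ρ) < ‖x‖ → φW x ∉ Q := by
    intro x hx hx1 hxQ
    have h1 : x ∈ g '' (Q ∩ closure W) := ⟨φW x, ⟨hxQ, subset_closure (hφW hx)⟩, hgφ x hx⟩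
    have h2 := mem_closedBall_zero_iff.1 (hρ h1)
    linarith
  -- the point on the curve
  obtain ⟨w, hw, hwA⟩ : ∃ w ∈ frontier W, w ∉ A := by
    by_contra hcon
    push Not at hcon
    exact Set.disjoint_left.1 hNQ (hN W hWo hWb (fun w hw => hAN (hcon w hw)) h0W) hyQ
  have hwX : w ∉ Y1 φ ω α r s := fun h2 => hfrU w hw ⟨h2, hwA⟩
  obtain ⟨-, t, ht, htr, rfl⟩ := y1_bd_pt hW (hclX (frontier_subset_closure hw)) hwX
  have hSo : IsOpen (Ss th s) := st_open _ _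
  have hpc : ContinuousAt ψ t := hW.dif.continuousOn.continuousAt (hSo.mem_nhds ht)
  have hev : ∀ᶠ t' in 𝓝 t, t' ∈ Ss th s ∧ ψ t' ∉ A :=
    (hSo.eventually_mem ht).and (hpc.eventually (hA.isClosed.isOpen_compl.eventually_mem hwA))
  obtain ⟨ε, hε, hεS⟩ := Metric.eventually_nhds_iff_ball.1 hev
  have hstrict : HasStrictDerivAt ψ (deriv ψ t) t :=
    (hW.dif.analyticAt (hSo.mem_nhds ht)).hasStrictDerivAt
  have hmap := hstrict.map_nhds_eq (hW.der t ht)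
  have hnb : ψ '' ball t ε ∈ 𝓝 (ψ t) := by
    rw [← hmap]
    exact image_mem_map (ball_mem_nhds t hε)
  have hwcl : ψ t ∈ closure W := frontier_subset_closure hw
  obtain ⟨_, ⟨t1, ht1, rfl⟩, hw1⟩ := mem_closure_iff_nhds.1 hwcl _ hnb
  have ht1r : t1.re < Real.log r / 2 ^ s := (y1_mem hW (hεS t1 ht1).1).1 (hWU hw1).1
  have hEc : Convex ℝ (ball t ε ∩ {z : ℂ | z.re < Real.log r / 2 ^ s}) :=
    (convex_ball t ε).inter (convex_halfSpace_re_lt _)
  have hEp : IsPreconnected (ψ '' (ball t ε ∩ {z : ℂ | z.re < Real.log r / 2 ^ s})) :=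
    hEc.isPreconnected.image _ (hW.dif.continuousOn.mono fun z hz => (hεS z hz.1).1)
  have hEU : ψ '' (ball t ε ∩ {z : ℂ | z.re < Real.log r / 2 ^ s}) ⊆ Y1 φ ω α r s \ A := by
    rintro _ ⟨z, ⟨hz, hzr⟩, rfl⟩
    exact ⟨(y1_mem hW (hεS z hz).1).2 hzr, (hεS z hz).2⟩
  have hEW := hEp.subset_connectedComponentIn ⟨t1, ⟨ht1, ht1r⟩, rfl⟩ hEU
  rw [hWe] at hw1
  rw [← connectedComponentIn_eq hw1, ← hWe] at hEW
  exact ⟨W, φW, 1 - ρ, t, ε, by linarith, by linarith, hφ, hinj, himg, h0W, hWb, hWU, hcol, htr, hε,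
    fun t' ht' => (hεS t' ht').1, fun t' ht' ht'r => hEW ⟨t', ⟨ht', ht'r⟩, rfl⟩⟩

end Pool.Agent.H91.GS
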